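import Pool.Agent.H27.L1.H34.GZ.Targets1

/-!
# MP_52e316_nt, row ADB of gz_modules: bases adapted to the flag of an integer matrix
-/

set_option autoImplicit false

open Pool.Agent.H27.L1.H34.GM Pool.Agent.H27.L1.H34.GZ

namespace Pool.Agent.H27.L1.H91.GZ

private theorem mem_flg {m i : ℕ} {v : Fin m → ℤ} :
    v ∈ flg m i ↔ ∀ j : Fin m, i ≤ (j : ℕ) → v j = 0 := Iff.rfl

private theorem flg_mono {m a b : ℕ} (h : a ≤ b) : flg m a ≤ flg m b :=
  fun _ hv j hj => hv j (h.trans hj)

/-- adapted bases for the preimages of the standard flag -/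
private theorem adapted (m : ℕ) (c : (Fin m → ℤ) →+ (Fin m → ℤ)) (hc : Function.Injective c) :
    ∃ e : (Fin m → ℤ) ≃+ (Fin m → ℤ), ∀ i ≤ m,
      (flg m i).map (e : (Fin m → ℤ) →+ (Fin m → ℤ)) = (flg m i).comap c := by
  have hb : ∀ i : Fin m, ∃ b ∈ (flg m ((i : ℕ) + 1)).comap c,
      ∀ w ∈ (flg m ((i : ℕ) + 1)).comap c, ∃ u : ℤ, w - u • b ∈ (flg m (i : ℕ)).comap c := by
    intro i
    obtain ⟨g, hg⟩ := Int.subgroup_cyclic
      (((flg m ((i : ℕ) + 1)).comap c).map ((Pi.evalAddMonoidHom (fun _ => ℤ) i).comp c))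
    have hgm : g ∈ ((flg m ((i : ℕ) + 1)).comap c).map
        ((Pi.evalAddMonoidHom (fun _ => ℤ) i).comp c) := by
      rw [hg]
      exact AddSubgroup.subset_closure rfl
    obtain ⟨b, hb1, hb2⟩ := AddSubgroup.mem_map.mp hgm
    have hb2' : c b i = g := hb2
    refine ⟨b, hb1, fun w hw => ?_⟩
    have hwm : c w i ∈ ((flg m ((i : ℕ) + 1)).comap c).map
        ((Pi.evalAddMonoidHom (fun _ => ℤ) i).comp c) :=
      AddSubgroup.mem_map.mpr ⟨w, hw, rfl⟩
    rw [hg, AddSubgroup.mem_closure_singleton] at hwm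
    obtain ⟨u, hu⟩ := hwm
    refine ⟨u, ?_⟩
    have h1 : w - u • b ∈ (flg m ((i : ℕ) + 1)).comap c :=
      AddSubgroup.sub_mem _ hw (AddSubgroup.zsmul_mem _ hb1 u)
    rw [AddSubgroup.mem_comap, mem_flg] at h1 ⊢
    intro j hj
    rcases eq_or_lt_of_le hj with h2 | h2
    · have h3 : j = i := (Fin.ext h2).symm
      rw [h3, map_sub, map_zsmul, Pi.sub_apply, Pi.smul_apply, hb2', hu, sub_self]
    · exact h1 j h2
  choose b hb1 hb2 using hb
  set E : (Fin m → ℤ) →ₗ[ℤ] (Fin m → ℤ) := Fintype.linearCombination ℤ b with hE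
  have hEa : ∀ u, E u = ∑ j, u j • b j := fun u => by
    rw [hE, Fintype.linearCombination_apply]
  have hin : ∀ i : ℕ, ∀ u ∈ flg m i, E u ∈ (flg m i).comap c := by
    intro i u hu
    rw [hEa]
    refine AddSubgroup.sum_mem _ fun j _ => ?_
    rcases lt_or_ge (j : ℕ) i with h | h
    · have h1 : b j ∈ (flg m i).comap c := flg_mono (Nat.succ_le_of_lt h) (hb1 j)
      exact AddSubgroup.zsmul_mem _ h1 _
    · rw [hu j h, zero_smul]
      exact AddSubgroup.zero_mem _
  have hout : ∀ i : ℕ, i ≤ m → ∀ w ∈ (flg m i).comap c, ∃ u ∈ flg m i, E u = w := by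
    intro i
    induction i with
    | zero =>
      intro _ w hw
      have h1 : c w = 0 := by
        ext j
        exact hw j (Nat.zero_le _)
      have h2 : w = 0 := hc (by rw [h1, map_zero])
      exact ⟨0, AddSubgroup.zero_mem _, by rw [map_zero, h2]⟩
    | succ i ih =>
      intro him w hw
      obtain ⟨u0, hu0⟩ := hb2 ⟨i, him⟩ w hw
      obtain ⟨u, hu, hEu⟩ := ih (Nat.le_of_succ_le him) _ hu0
      refine ⟨u + Pi.single (⟨i, him⟩ : Fin m) u0, ?_, ?_⟩
      · refine AddSubgroup.add_mem _ (flg_mono (Nat.le_succ i) hu) ?_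
        intro j hj
        have h3 : j ≠ ⟨i, him⟩ := by
          intro h
          rw [h] at hj
          exact absurd hj (by simp)
        rw [Pi.single_eq_of_ne h3]
      · have h4 : E (Pi.single (⟨i, him⟩ : Fin m) u0) = u0 • b ⟨i, him⟩ := by
          rw [hEa, Finset.sum_eq_single (⟨i, him⟩ : Fin m)]
          · rw [Pi.single_eq_same]
          · intro j _ hj
            rw [Pi.single_eq_of_ne hj, zero_smul]
          · intro h
            exact absurd (Finset.mem_univ _) h
        rw [map_add, hEu, h4, sub_add_cancel]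
  have hsurj : Function.Surjective E := by
    intro w
    have hw : w ∈ (flg m m).comap c := by
      intro j hj
      exact absurd j.2 (not_lt.mpr hj)
    obtain ⟨u, -, hu⟩ := hout m le_rfl w hw
    exact ⟨u, hu⟩
  have hinj : Function.Injective E := IsNoetherian.injective_of_surjective_endomorphism E hsurj
  refine ⟨(LinearEquiv.ofBijective E ⟨hinj, hsurj⟩).toAddEquiv, fun i hi => ?_⟩
  ext w
  rw [AddSubgroup.mem_map]
  constructor
  · rintro ⟨u, hu, rfl⟩
    exact hin i u hu
  · intro hw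
    obtain ⟨u, hu, hEu⟩ := hout i hi w hw
    exact ⟨u, hu, hEu⟩

/-- the coordinates with respect to the rows of `x`, times the determinant -/
private def crd {m : ℕ} (x : Matrix (Fin m) (Fin m) ℤ) : (Fin m → ℤ) →+ (Fin m → ℤ) :=
  AddMonoidHom.mk' (fun w => Matrix.vecMul w x.adjugate) fun _ _ => Matrix.add_vecMul _ _ _

private theorem crd_mul {m : ℕ} (x : Matrix (Fin m) (Fin m) ℤ) (w : Fin m → ℤ) :
    Matrix.vecMul (crd x w) x = x.det • w := by
  show Matrix.vecMul (Matrix.vecMul w x.adjugate) x = _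
  rw [Matrix.vecMul_vecMul, Matrix.adjugate_mul, Matrix.vecMul_smul, Matrix.vecMul_one]

private theorem lx_eq {m : ℕ} (x : ZM m) (hx : x.det ≠ 0) (i : ℕ) :
    Lx x i = (flg m i).comap (crd x) := by
  ext w
  have h0 : w ∈ Lx x i ↔ (fun l => (w l : ℚ)) ∈ Submodule.span ℚ {w : Fin m → ℚ |
      ∃ j : Fin m, (j : ℕ) < i ∧ w = fun l => ((x j l : ℤ) : ℚ)} := Iff.rfl
  rw [h0, AddSubgroup.mem_comap, mem_flg]
  constructor
  · intro h l hl
    have h1 : ∀ v ∈ Submodule.span ℚ {w : Fin m → ℚ |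
        ∃ j : Fin m, (j : ℕ) < i ∧ w = fun l => ((x j l : ℤ) : ℚ)},
        ∑ k, v k * ((x.adjugate k l : ℤ) : ℚ) = 0 := by
      intro v hv
      induction hv using Submodule.span_induction with
      | mem v hv =>
        obtain ⟨j, hj, rfl⟩ := hv
        have h2 : (x * x.adjugate) j l = 0 := by
          rw [Matrix.mul_adjugate, Matrix.smul_apply, Matrix.one_apply_ne, smul_zero]
          intro h
          rw [h] at hj
          omega
        rw [Matrix.mul_apply] at h2
        have h3 : ((∑ k, x j k * x.adjugate k l : ℤ) : ℚ) = 0 := by rw [h2, Int.cast_zero]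
        rw [Int.cast_sum] at h3
        rw [← h3]
        exact Finset.sum_congr rfl fun k _ => by rw [Int.cast_mul]
      | zero => simp
      | add a b _ _ ha hb =>
        simp only [Pi.add_apply, add_mul, Finset.sum_add_distrib]
        rw [ha, hb, add_zero]
      | smul r a _ ha =>
        simp only [Pi.smul_apply, smul_eq_mul, mul_assoc]
        rw [← Finset.mul_sum, ha, mul_zero]
    have h4 := h1 _ h
    have h5 : ((crd x w l : ℤ) : ℚ) = 0 := by
      rw [← h4]
      show (((Matrix.vecMul w x.adjugate) l : ℤ) : ℚ) = _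
      rw [Matrix.vecMul, dotProduct, Int.cast_sum]
      exact Finset.sum_congr rfl fun k _ => by rw [Int.cast_mul]
    exact_mod_cast h5
  · intro h
    have hd : ((x.det : ℤ) : ℚ) ≠ 0 := by exact_mod_cast hx
    have h1 : (fun l => (w l : ℚ)) = ((x.det : ℤ) : ℚ)⁻¹ •
        ∑ j, ((crd x w j : ℤ) : ℚ) • (fun l => ((x j l : ℤ) : ℚ)) := by
      ext l
      have h2 := congrFun (crd_mul x w) l
      rw [Matrix.vecMul, dotProduct, Pi.smul_apply, smul_eq_mul] at h2
      have h3 : ∑ j, ((crd x w j : ℤ) : ℚ) * ((x j l : ℤ) : ℚ) = ((x.det : ℤ) : ℚ) * (w l : ℚ) := by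
        have : ((∑ j, crd x w j * x j l : ℤ) : ℚ) = ((x.det * w l : ℤ) : ℚ) := by rw [h2]
        rw [Int.cast_sum, Int.cast_mul] at this
        rw [← this]
        exact Finset.sum_congr rfl fun k _ => by rw [Int.cast_mul]
      rw [Pi.smul_apply, Finset.sum_apply]
      simp only [Pi.smul_apply, smul_eq_mul]
      rw [h3, ← mul_assoc, inv_mul_cancel₀ hd, one_mul]
    rw [h1]
    refine Submodule.smul_mem _ _ (Submodule.sum_mem _ fun j _ => ?_)
    rcases lt_or_ge (j : ℕ) i with hj | hj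
    · exact Submodule.smul_mem _ _ (Submodule.subset_span ⟨j, hj, rfl⟩)
    · rw [h j hj, Int.cast_zero, zero_smul]
      exact Submodule.zero_mem _

theorem pf_ADB : T_ADB := by
  intro m x hx
  have hinj : Function.Injective (crd x) := by
    rw [injective_iff_map_eq_zero]
    intro w hw
    have h1 := crd_mul x w
    rw [hw, Matrix.zero_vecMul] at h1
    exact (smul_eq_zero.mp h1.symm).resolve_left hx
  obtain ⟨e, he⟩ := adapted m (crd x) hinj
  exact ⟨e, fun i hi => by rw [he i hi, lx_eq x hx i]⟩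

end Pool.Agent.H27.L1.H91.GZ
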